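import Pool.Agent.H97.PK.Targets3
import Pool.Agent.H22.PK.BLK

/-!
# BLM: from radii of ratio at most `4 d` to arbitrary radii
-/

open MeasureTheory Set Metric Real
open scoped ENNReal

set_option autoImplicit false

namespace Pool.Agent.H85.PK

open Pool.Agent.H97.PK

theorem blm_pow_le (d : ℕ) (hd : 1 ≤ d) : (1 + 2 / (4 * (d : ℝ))) ^ d ≤ exp (1 / 2) := by
  have hd0 : (0 : ℝ) < d := by exact_mod_cast hd
  calc (1 + 2 / (4 * (d : ℝ))) ^ d ≤ exp (2 / (4 * (d : ℝ))) ^ d := by
        refine pow_le_pow_left₀ (by positivity) ?_ d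
        have := Real.add_one_le_exp (2 / (4 * (d : ℝ)))
        linarith
    _ = exp (1 / 2) := by
        rw [← Real.exp_nat_mul]
        congr 1
        field_simp
        ring

theorem pf_blm (hGRO : T_GRO) : T_BLM := by
  classical
  intro d hd C hyp ι _ p q ρ hinj hcon hρ
  have hd0 : (0 : ℝ) < d := by exact_mod_cast hd
  have hd1 : (1 : ℝ) ≤ d := by exact_mod_cast hd
  set ab : ι → ι → Prop := fun l i => (4 * (d : ℝ)) * ρ i ≤ ρ l ∧
    dist (p i) (p l) ≤ (1 + 1 / (4 * (d : ℝ))) * ρ l with hab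
  have hablt : ∀ l i, ab l i → ρ i < ρ l := by
    rintro l i ⟨h1, -⟩
    nlinarith [hρ i]
  obtain ⟨S, -, hS1, hS2⟩ := Pool.Agent.H22.PK.BLK.kernel ρ ab hablt _
    (Finset.univ : Finset ι) rfl
  -- blocks
  set b : ι → ℤ := fun i => Int.log (4 * d) (ρ i) with hb
  have hd2 : 1 < 4 * d := by omega
  have hb1 : ∀ i, ((4 * d : ℕ) : ℝ) ^ b i ≤ ρ i := fun i => Int.zpow_log_le_self hd2 (hρ i)
  have hb2 : ∀ i, ρ i < ((4 * d : ℕ) : ℝ) ^ (b i + 1) := fun i => Int.lt_zpow_succ_log_self hd2 (ρ i)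
  have hβ : ((4 * d : ℕ) : ℝ) = 4 * (d : ℝ) := by push_cast; ring
  have hβ0 : (0 : ℝ) < 4 * (d : ℝ) := by linarith
  have hβ1 : (1 : ℝ) ≤ 4 * (d : ℝ) := by linarith
  rw [hβ] at hb1 hb2
  have hsame : ∀ i j, b i = b j → ρ i ≤ 4 * (d : ℝ) * ρ j := by
    intro i j hij
    have h1 := hb2 i
    have h2 := hb1 j
    rw [hij, zpow_add_one₀ hβ0.ne'] at h1
    nlinarith
  have hfar : ∀ l i, b i + 2 ≤ b l → (4 * (d : ℝ)) * ρ i ≤ ρ l := by
    intro l i hli
    have h1 := hb2 i
    have h2 := hb1 l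
    have h3 : (4 * (d : ℝ)) ^ (b i + 2) ≤ (4 * (d : ℝ)) ^ b l := zpow_le_zpow_right₀ hβ1 hli
    have h4 : (4 * (d : ℝ)) ^ (b i + 2) = (4 * (d : ℝ)) ^ (b i + 1) * (4 * (d : ℝ)) := by
      rw [← zpow_add_one₀ hβ0.ne']
      congr 1
      ring
    rw [h4] at h3
    nlinarith
  have hsmall : ∀ l i, (4 * (d : ℝ)) * ρ i ≤ ρ l → ρ i ≤ 1 / (4 * (d : ℝ)) * ρ l := by
    intro l i h
    rw [one_div, ← div_eq_inv_mul, le_div_iff₀ hβ0]
    nlinarith [hρ i]
  -- (1)
  have step1 : vU q ρ ≤ ENNReal.ofReal (exp (1 / 2)) *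
      vU (fun i : {i // i ∈ S} => q i) (fun i : {i // i ∈ S} => ρ i) := by
    have h1 : vU q ρ ≤ vU (fun i : {i // i ∈ S} => q i)
        (fun i : {i // i ∈ S} => (1 + 2 / (4 * (d : ℝ))) * ρ i) := by
      refine measure_mono (iUnion_subset fun i => ?_)
      by_cases hi : i ∈ S
      · refine subset_iUnion_of_subset ⟨i, hi⟩ (closedBall_subset_closedBall ?_)
        have : (0 : ℝ) < 2 / (4 * (d : ℝ)) := by positivity
        nlinarith [hρ i]
      · obtain ⟨l, hl, h2, h3⟩ := hS2 i (Finset.mem_univ i) hi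
        refine subset_iUnion_of_subset ⟨l, hl⟩ (closedBall_subset_closedBall' ?_)
        have h4 := hcon i l
        have h5 : ρ i ≤ 1 / (4 * (d : ℝ)) * ρ l := hsmall l i h2
        have h6 : (1 + 2 / (4 * (d : ℝ))) * ρ l =
            (1 + 1 / (4 * (d : ℝ))) * ρ l + 1 / (4 * (d : ℝ)) * ρ l := by ring
        simp only
        linarith
    refine h1.trans ((hGRO d hd {i // i ∈ S} (fun i => q i) (fun i => ρ i)
      (1 + 2 / (4 * (d : ℝ))) ?_).trans
      (mul_le_mul' (ENNReal.ofReal_le_ofReal (blm_pow_le d hd)) le_rfl))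
    have : (0 : ℝ) < 2 / (4 * (d : ℝ)) := by positivity
    linarith
  -- (2)
  set F : ℤ → Finset ι := fun t => S.filter fun i => b i = t with hF
  set A : ℤ → Set (E d) := fun t => ⋃ i : {i // i ∈ F t}, closedBall (p i) (ρ i) with hA
  have step2 : vU (fun i : {i // i ∈ S} => q i) (fun i : {i // i ∈ S} => ρ i) ≤
      ∑ t ∈ S.image b, C * volume (A t) := by
    calc vU (fun i : {i // i ∈ S} => q i) (fun i : {i // i ∈ S} => ρ i)
        ≤ volume (⋃ t ∈ S.image b, ⋃ i : {i // i ∈ F t}, closedBall (q i) (ρ i)) := by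
          refine measure_mono (iUnion_subset fun i => ?_)
          refine subset_iUnion₂_of_subset (b i.1) (Finset.mem_image_of_mem b i.2) ?_
          exact subset_iUnion_of_subset (⟨i.1, by simp [hF, i.2]⟩ : {j // j ∈ F (b i.1)}) subset_rfl
      _ ≤ ∑ t ∈ S.image b, volume (⋃ i : {i // i ∈ F t}, closedBall (q i) (ρ i)) :=
          measure_biUnion_finset_le _ _
      _ ≤ ∑ t ∈ S.image b, C * volume (A t) := by
          refine Finset.sum_le_sum fun t _ => ?_
          refine hyp {i // i ∈ F t} (fun i => p i) (fun i => q i) (fun i => ρ i) ?_ ?_ ?_ ?_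
          · intro i j hij
            exact Subtype.ext (hinj hij)
          · intro i j
            exact hcon i j
          · intro i
            exact hρ i
          · intro i j
            refine hsame i j ?_
            have h1 := (Finset.mem_filter.1 i.2).2
            have h2 := (Finset.mem_filter.1 j.2).2
            rw [h1, h2]
  -- (3)
  have hdisj : ∀ t t' : ℤ, t' + 2 ≤ t → Disjoint (A t) (A t') := by
    intro t t' htt
    rw [Set.disjoint_iUnion_left]
    intro l
    rw [Set.disjoint_iUnion_right]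
    intro i
    have hl := Finset.mem_filter.1 l.2
    have hi := Finset.mem_filter.1 i.2
    have h1 : (4 * (d : ℝ)) * ρ i ≤ ρ l := hfar l i (by rw [hl.2, hi.2]; exact htt)
    have h2 : ¬ ab l i := hS1 l hl.1 i hi.1
    have h3 : (1 + 1 / (4 * (d : ℝ))) * ρ l < dist (p i) (p l) := by
      by_contra hc
      exact h2 ⟨h1, not_lt.1 hc⟩
    apply closedBall_disjoint_closedBall
    have h5 : ρ i ≤ 1 / (4 * (d : ℝ)) * ρ l := hsmall _ _ h1
    rw [dist_comm]
    linarith
  have hmeas : ∀ t, MeasurableSet (A t) := fun t =>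
    (isClosed_iUnion_of_finite fun i => isClosed_closedBall).measurableSet
  have hpar : ∀ (P : ℤ → Prop) [DecidablePred P], (∀ t t', P t → P t' → t ≠ t' → t' + 2 ≤ t ∨ t + 2 ≤ t') →
      ∑ t ∈ (S.image b).filter P, volume (A t) ≤ vU p ρ := by
    intro P _ hP
    rw [← measure_biUnion_finset]
    · refine measure_mono (iUnion₂_subset fun t _ => iUnion_subset fun i => ?_)
      exact subset_iUnion_of_subset i.1 subset_rfl
    · intro t ht t' ht' hne
      have h1 := (Finset.mem_filter.1 ht).2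
      have h2 := (Finset.mem_filter.1 ht').2
      rcases hP t t' h1 h2 hne with h | h
      · exact hdisj t t' h
      · exact (hdisj t' t h).symm
    · intro t _
      exact hmeas t
  have step3 : ∑ t ∈ S.image b, volume (A t) ≤ 2 * vU p ρ := by
    rw [← Finset.sum_filter_add_sum_filter_not (S.image b) (fun t => Even t), two_mul]
    refine add_le_add (hpar _ ?_) (hpar _ ?_)
    · rintro t t' ⟨a, ha⟩ ⟨c, hc⟩ hne
      omega
    · intro t t' ht ht' hne
      rw [Int.not_even_iff_odd] at ht ht'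
      obtain ⟨a, ha⟩ := ht
      obtain ⟨c, hc⟩ := ht'
      omega
  calc vU q ρ ≤ ENNReal.ofReal (exp (1 / 2)) *
        vU (fun i : {i // i ∈ S} => q i) (fun i : {i // i ∈ S} => ρ i) := step1
    _ ≤ ENNReal.ofReal (exp (1 / 2)) * (C * (2 * vU p ρ)) := by
        refine mul_le_mul' le_rfl (step2.trans ?_)
        rw [← Finset.mul_sum]
        exact mul_le_mul' le_rfl step3
    _ = ENNReal.ofReal (2 * exp (1 / 2)) * C * vU p ρ := by
        rw [ENNReal.ofReal_mul (by norm_num)]
        simp only [ENNReal.ofReal_ofNat]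
        ring

end Pool.Agent.H85.PK
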